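import Pool.Agent.Helper70.Flat.Example
import Pool.Agent.Helper70.Flat.Notions
import Pool.Agent.Helper70.Flat.Oriented
import Pool.Agent.Helper70.Flat.EulerClass
import Pool.Agent.Helper70.Flat.WalkGen
import Pool.Agent.Helper70.Flat.WalkLabel

/-!
An explicit flat circle bundle over an explicit closed oriented four-manifold with nonzero square
of the Euler class.
-/

open FlatCircle

namespace Pool.Agent.Results.MP_d4615f_gt.ExplicitFlatBundle

theorem result :
    Finite Reach ∧ CompactSpace M4 ∧ T2Space M4 ∧ PathConnectedSpace M4 ∧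
    IsOrientedSmoothManifold (Fin 4 → ℝ) M4 ∧
    (∀ a : FundamentalGroup M4 (Glued.mk Reach.mutate Reach.start centre),
      ∃ (ws : List Fct) (h : walkEnd Reach.mutate ws Reach.start = Reach.start),
        a = walkClass Reach.mutate ws Reach.start h) ∧
    ∃ ρ : FundamentalGroup M4 (Glued.mk Reach.mutate Reach.start centre) →* CircleDiff,
      (∀ (ws : List Fct) (h : walkEnd Reach.mutate ws Reach.start = Reach.start),
        ρ (walkClass Reach.mutate ws Reach.start h) =
          (walkLabel Reach.mutate Reach.label ws Reach.start)⁻¹) ∧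
      (∀ c, IsEulerCocycle ρ c → ∀ σ, coboundary c σ = 0) ∧
      (∀ c c', IsEulerCocycle ρ c → IsEulerCocycle ρ c' → ∃ b, ∀ σ, c' σ - c σ = coboundary b σ) ∧
      EulerSquareInfiniteOrder ρ := by
  refine ⟨inferInstance, ?_, ?_, ?_, isOrientedSmoothManifold_M4, ?_, ?_⟩
  · infer_instance
  · exact GlueData.t2Space reachData.toGlueData
  · exact Glued.pathConnectedSpace Reach.mutate Reach.start reach_conn
  · exact reachData.toGlueData.exists_walkClass Reach.start
  · have hp : IsQuotientCoveringMap (coverProj Reach.mutate Reach.label) CircleDiff :=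
      reachData.isQuotientCoveringMap
    refine ⟨holonomy hp (x₀ := Glued.mk Reach.mutate Reach.start centre)
      ⟨Glued.mk (coverΦ Reach.mutate Reach.label) (Reach.start, 1) centre, rfl⟩,
      fun ws h => holonomy_walkClass _ _ hp ws _ h,
      fun c hc => hc.coboundary_eq_zero, fun c c' hc hc' => hc.exists_coboundary hc',
      main_result hp _⟩

end Pool.Agent.Results.MP_d4615f_gt.ExplicitFlatBundle
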